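import Mathlib
import Pool.Prelude.Def_F_c31e40fa
import Pool.Agent.Q79.AreaAsyD

set_option autoImplicit false

open MeasureTheory Filter Topology

/-!
# Exact asymptotics of the areas of the Multibrot sets of large degree

To first order the area of `M_n` which is not covered by the main component (parameters with an
attracting fixed point) is covered by the parameters with an attracting cycle of period two.
-/

namespace Pool.Agent.Results.MP_c35c17_an.AreaAsymptotics

/-- The parameters `c` for which `z ^ n + c` has an attracting cycle of exact period `m`. -/
def Exact (n m : ℕ) : Set ℂ :=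
  {c | ∃ z, N62a1eb23.IsAttractingCycle (fun z => z ^ n + c) m z ∧
    Function.minimalPeriod (fun z => z ^ n + c) z = m}

theorem result :
    -- the area of the Multibrot set is `π - (π + o(1)) log n / n`
    Tendsto (fun n : ℕ => (Real.pi - (volume (N62a1eb23.multibrotSet n)).toReal) /
      (Real.log n / n)) atTop (𝓝 Real.pi) ∧
    -- the area of its main component is `π - (2 π + o(1)) log n / n`
    Tendsto (fun n : ℕ => (Real.pi - (volume (Exact n 1)).toReal) / (Real.log n / n))
      atTop (𝓝 (2 * Real.pi)) ∧
    -- the area of the set of the parameters with an attracting cycle of exact period two is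
    -- `(π + o(1)) log n / n`
    Tendsto (fun n : ℕ => (volume (Exact n 2)).toReal / (Real.log n / n)) atTop (𝓝 Real.pi) ∧
    -- the rest of the Multibrot set has area `o(log n / n)`
    Tendsto (fun n : ℕ => (volume (N62a1eb23.multibrotSet n \ (Exact n 1 ∪ Exact n 2))).toReal /
      (Real.log n / n)) atTop (𝓝 0) :=
  Pool.Agent.Q79.AA.areas

end Pool.Agent.Results.MP_c35c17_an.AreaAsymptotics
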