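import Mathlib
import Pool.Prelude.Def_F_c31e40fa
import Pool.Agent.Q75.LwH

set_option autoImplicit false

/-!
# The distance of a random parameter to the boundary of its hyperbolic component

Let `c` be uniformly distributed in the annulus `Y ≤ n |c| ^ (n - 1) ≤ lam Y`, and let `p` be the
exact period of the attracting cycle of `z ^ n + c`. The function `v_p (z) = f_z ^ p (0) / z - 1`
vanishes exactly when the critical point is periodic; its logarithmic derivative `ℓ` at `c` measures
how fast the argument of `v_p` changes. As `n → ∞` and `Y → ∞` (slowly: `Y ≤ log^[K] n`), the pair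
of `p` and `|ℓ| * dist (c, complement of the set of the parameters of exact period p)` converges in
law: the two components become independent, `p` is geometric, `P (p = k + 1) = 2 ^ (-k)` for
`k ≥ 1`, and the second component has the uniform distribution on `[0, π / 2]`.
-/

open MeasureTheory Filter Topology

namespace Pool.Agent.Results.MP_c35c17_an.DistanceLaw

/-- The parameters for which `z ^ n + c` has an attracting cycle of exact period `p`. -/
def Exact (n p : ℕ) : Set ℂ :=
  {c | ∃ z, N62a1eb23.IsAttractingCycle (fun z => z ^ n + c) p z ∧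
    Function.minimalPeriod (fun z => z ^ n + c) z = p}

/-- The relative position of the point `f_c ^ p (0)` of the critical orbit with respect to the
critical value `c`, as a function of the parameter. -/
noncomputable def relPos (n p : ℕ) (c : ℂ) : ℂ := (fun z => z ^ n + c)^[p] 0 / c - 1

/-- The parameters `c` for which `z ^ n + c` has an attracting cycle whose exact period `p` belongs
to `S`, the product of the distance of `c` to the complement of the set of the parameters of exact
period `p` and the modulus of the logarithmic derivative of `relPos n p` at `c` being at most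
`t π / 2`. -/
def Event (n : ℕ) (S : Set ℕ) (t : ℝ) : Set ℂ :=
  {c | ∃ p ∈ S, c ∈ Exact n p ∧
    Metric.infDist c (Exact n p)ᶜ * ‖logDeriv (relPos n p) c‖ ≤ t * (Real.pi / 2)}

/-- The annulus `y ≤ n |c| ^ (n - 1) ≤ y'`. -/
def Annulus (n : ℕ) (y y' : ℝ) : Set ℂ :=
  {c | y ≤ n * ‖c‖ ^ (n - 1) ∧ n * ‖c‖ ^ (n - 1) ≤ y'}

/-- The proportion of the parameters of `B` in the annulus. -/
noncomputable def Proportion (n : ℕ) (y y' : ℝ) (B : Set ℂ) : ℝ :=
  (volume (B ∩ Annulus n y y')).toReal / (volume (Annulus n y y')).toReal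

open Classical in
theorem result {lam ε : ℝ} (hl : 1 < lam) (hε : 0 < ε) : ∃ (K : ℕ) (Y₀ : ℝ),
    ∀ᶠ n : ℕ in atTop, ∀ Y : ℝ, Y₀ ≤ Y → Y ≤ Real.log^[K] (n : ℝ) → ∀ (S : Set ℕ) (t : ℝ),
      0 ≤ t → t ≤ 1 →
      |Proportion n Y (lam * Y) (Event n S t) -
        (∑' k : ℕ, if k + 2 ∈ S then (1 / 2 : ℝ) ^ (k + 1) else 0) * t| ≤ ε := by
  obtain ⟨K, Y₀, h⟩ := Pool.Agent.Q75.Lw.lawD hl hε
  refine ⟨K, Y₀, ?_⟩
  filter_upwards [h] with n hn
  intro Y hY hYn S t ht0 ht1
  obtain ⟨h1, h2⟩ := hn Y hY hYn S t ht0 ht1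
  have hE : Event n S t = Pool.Agent.Q75.Lw.DistE n S t := rfl
  set V := (volume (Annulus n Y (lam * Y))).toReal with hV
  have h1' : 0 < V := h1
  have h2' : |(volume (Event n S t ∩ Annulus n Y (lam * Y))).toReal -
      (∑' j : ℕ, if j + 2 ∈ S then (1 / 2 : ℝ) ^ (j + 1) else 0) * t * V| ≤ ε * V := by
    rw [hE]; exact h2
  unfold Proportion
  rw [← hV, ← mul_le_mul_iff_left₀ h1']
  calc _ = |(((volume (Event n S t ∩ Annulus n Y (lam * Y))).toReal / V) -
        (∑' j : ℕ, if j + 2 ∈ S then (1 / 2 : ℝ) ^ (j + 1) else 0) * t) * V| := by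
        rw [abs_mul, abs_of_pos h1']
    _ = |(volume (Event n S t ∩ Annulus n Y (lam * Y))).toReal -
      (∑' j : ℕ, if j + 2 ∈ S then (1 / 2 : ℝ) ^ (j + 1) else 0) * t * V| := by
        congr 1
        rw [sub_mul, div_mul_cancel₀ _ h1'.ne']
    _ ≤ _ := h2'

end Pool.Agent.Results.MP_c35c17_an.DistanceLaw
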