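import Mathlib
import Pool.Prelude.Def_F_c31e40fa
import Pool.Agent.Q74.EX.Dist

/-!
# Multibrot sets of large degree against the exponential family

With `η = n c ^ (n - 1)` the map `z ^ n + c` is conjugate, by `z = c (1 + w / n)`, to
`w ↦ η (1 + w / n) ^ n`, which converges to `w ↦ λ e ^ w` as `n → ∞` and `η → λ`. The theorem bounds
the area of the non-hyperbolic parameters of the Multibrot set `M_n`, and the distance from the
points of `M_n` to the hyperbolic parameters, asymptotically and uniformly over the whole of `M_n`,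
by the corresponding quantities of the exponential family.
-/

set_option autoImplicit false

open MeasureTheory Set Filter Topology
open scoped ENNReal

namespace Pool.Agent.Results.MP_c35c17_an.ExponentialComparison

/-- The parameters `c` for which `z ^ n + c` has an attracting cycle. -/
def Hyp (n : ℕ) : Set ℂ := {c | ∃ m z, N62a1eb23.IsAttractingCycle (fun z => z ^ n + c) m z}

/-- The parameters `λ` for which `w ↦ λ e ^ w` has an attracting cycle. -/
def HypExp : Set ℂ :=
  {lam | ∃ m w, N62a1eb23.IsAttractingCycle (fun w => lam * Complex.exp w) m w}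

/-- `n` times the area of the parameters `c` in `M_n` outside `Hyp n` with `n c ^ (n - 1) ∈ F`. -/
noncomputable def badArea (F : Set ℂ) (n : ℕ) : ℝ≥0∞ :=
  n * volume {c : ℂ | c ∈ N62a1eb23.multibrotSet n \ Hyp n ∧ (n : ℂ) * c ^ (n - 1) ∈ F}

/-- `n` times the supremum over `c` in `M_n` of the distance from `c` to `Hyp n`. -/
noncomputable def badDist (n : ℕ) : ℝ≥0∞ :=
  n * ⨆ c ∈ N62a1eb23.multibrotSet n, Metric.infEDist c (Hyp n)

theorem result :
    IsOpen HypExp ∧
    -- areas: the density `1 / |λ| ^ 2` is the one with which `n c ^ (n - 1)` fills the plane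
    (∀ F : Set ℂ, MeasurableSet F →
      limsup (badArea F) atTop ≤ ∫⁻ lam in F \ HypExp, ENNReal.ofReal (1 / ‖lam‖ ^ 2)) ∧
    (volume HypExpᶜ = 0 → Tendsto (badArea univ) atTop (𝓝 0)) ∧
    -- distances, with the parameter `λ = e ^ κ` of the exponential family in logarithmic scale
    limsup badDist atTop ≤ ⨆ κ : ℂ, Metric.infEDist κ {κ | Complex.exp κ ∈ HypExp} ∧
    (⨆ κ : ℂ, Metric.infEDist κ {κ | Complex.exp κ ∈ HypExp}) ≤ ENNReal.ofReal Real.pi ∧
    (Dense HypExp → Tendsto badDist atTop (𝓝 0)) := by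
  have hA : ∀ F : Set ℂ, MeasurableSet F →
      limsup (badArea F) atTop ≤ ∫⁻ lam in F \ HypExp, ENNReal.ofReal (1 / ‖lam‖ ^ 2) :=
    fun F hF => Pool.Agent.Q74.EX.area hF
  have hB : limsup badDist atTop ≤
      ⨆ κ : ℂ, Metric.infEDist κ {κ | Complex.exp κ ∈ HypExp} := Pool.Agent.Q74.EX.dist_bound
  refine ⟨Pool.Agent.Q74.EX.isOpen_Hexp, hA, fun h0 => ?_, hB,
    iSup_le fun κ => Pool.Agent.Q74.EX.gap_le κ, fun hd => ?_⟩
  · have h1 := hA univ MeasurableSet.univ
    have h2 : volume.restrict (univ \ HypExp) = 0 := by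
      rw [Measure.restrict_eq_zero, ← compl_eq_univ_sdiff, h0]
    rw [h2, lintegral_zero_measure] at h1
    exact tendsto_of_le_liminf_of_limsup_le zero_le h1 (by isBoundedDefault) (by isBoundedDefault)
  · have hd' : Dense {κ : ℂ | Complex.exp κ ∈ HypExp} := hd.preimage Complex.isOpenMap_exp
    have h1 : (⨆ κ : ℂ, Metric.infEDist κ {κ | Complex.exp κ ∈ HypExp}) = 0 := by
      rw [ENNReal.iSup_eq_zero]
      intro κ
      rw [← Metric.infEDist_closure, hd'.closure_eq]
      exact Metric.infEDist_zero_of_mem (mem_univ κ)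
    rw [h1] at hB
    exact tendsto_of_le_liminf_of_limsup_le zero_le hB (by isBoundedDefault) (by isBoundedDefault)

end Pool.Agent.Results.MP_c35c17_an.ExponentialComparison
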