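import Mathlib
import Pool.Prelude.Def_F_c31e40fa
import Pool.Agent.Q79.McG
import Pool.Agent.Q79.McN

/-!
# Hausdorff contents of the non-hyperbolic part of the Multibrot sets

Let `N_n` be the set of `c` in the Multibrot set `M_n` for which `z ^ n + c` has no attracting
cycle. For every dimension `α ≤ 1` the `α`-dimensional Hausdorff content of `N_n` is asymptotically
that of all of `M_n`, while for every `α > 1` it is at most `C n ^ (1 - α)`. The parameters whose
critical orbit has no close return, `|f_c^j(0)| ^ n ≥ κ / n` for all `j ≥ 1`, form a set of dimension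
close to at most one when `κ` is large, uniformly in `n`.
-/

set_option autoImplicit false

open Filter Topology MeasureTheory Metric Set
open scoped ENNReal

namespace Pool.Agent.Results.MP_c35c17_an.HausdorffContents

open N62a1eb23 (IsAttractingCycle multibrotSet)

/-- The `α`-dimensional Hausdorff content: the infimum of `∑ diam(t i) ^ α` over countable covers. -/
noncomputable def content (α : ℝ) (S : Set ℂ) : ℝ≥0∞ :=
  ⨅ (t : ℕ → Set ℂ) (_ : S ⊆ ⋃ i, t i), ∑' i, ediam (t i) ^ α

/-- The `c` in the Multibrot set for which `z ^ n + c` has no attracting cycle. -/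
def NonHyp (n : ℕ) : Set ℂ :=
  multibrotSet n \ {c | ∃ m z, IsAttractingCycle (fun z => z ^ n + c) m z}

/-- The `c` in the Multibrot set for which `|f_c^j(0)| ^ n ≥ κ / n` for all `j ≥ 1`. -/
def NoCloseReturn (n : ℕ) (κ : ℝ) : Set ℂ :=
  {c | c ∈ multibrotSet n ∧ ∀ j : ℕ, 1 ≤ j → κ / n ≤ ‖(fun z : ℂ => z ^ n + c)^[j] 0‖ ^ n}

section aux

open Pool.Agent.Q79.MC

theorem sub_CN {n : ℕ} (hn : 2 ≤ n) {κ : ℝ} (hκ : 0 < κ) : NoCloseReturn n κ ⊆ CN n κ := by
  rintro c ⟨hc, h⟩
  have hn0 : (0:ℝ) < n := by exact_mod_cast (by omega : 0 < n)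
  have h' : ∀ j : ℕ, κ / n ≤ ‖((f n c)^[j] c) ^ n‖ := by
    intro j
    have h1 := h (j + 1) (by omega)
    have h2 : (fun z : ℂ => z ^ n + c)^[j + 1] 0 = (f n c)^[j] c := iter_zero (by omega) c j
    rwa [h2, ← norm_pow] at h1
  refine ⟨?_, orbit_le hn hc 0, fun j => ?_⟩
  · rintro rfl
    have h1 := h' 0
    simp only [Function.iterate_zero, id] at h1
    rw [zero_pow (by omega), norm_zero] at h1
    exact absurd h1 (not_le.2 (by positivity))
  · rw [T_iter]
    exact ⟨h' j, orbit_pow_le hn hc j⟩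

end aux

open Pool.Agent.Q79.MC in
theorem result :
    -- the contents of dimension at most one
    (∀ α : ℝ, 0 < α → α ≤ 1 →
      Tendsto (fun n => content α (NonHyp n)) atTop (𝓝 (ENNReal.ofReal (2 ^ α))) ∧
      Tendsto (fun n => content α (multibrotSet n)) atTop (𝓝 (ENNReal.ofReal (2 ^ α)))) ∧
    -- the contents of dimension larger than one
    (∀ α : ℝ, 1 < α → α ≤ 2 → ∃ C : ℝ, ∀ n : ℕ, 2 ≤ n →
      content α (NonHyp n) ≤ ENNReal.ofReal (C * (n : ℝ) ^ (1 - α))) ∧
    -- the parameters without close returns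
    (∀ α : ℝ, 1 < α → ∃ κ : ℝ, ∀ n : ℕ, 2 ≤ n →
      dimH (NoCloseReturn n κ) ≤ ENNReal.ofReal α) := by
  refine ⟨fun α hα hα1 => ⟨lim_small hα hα1, ?_⟩, fun α hα hα2 => ?_, fun α hα => ?_⟩
  · have h1 : Tendsto (fun n : ℕ => ENNReal.ofReal ((2 * (1 + 1 / ((n:ℝ) - 1))) ^ α)) atTop
        (𝓝 (ENNReal.ofReal (2 ^ α))) := lim_ball
    refine tendsto_of_tendsto_of_tendsto_of_le_of_le' (lim_small hα hα1) h1 ?_ ?_
    · exact Eventually.of_forall fun n =>
        measure_mono (μ := Pool.Agent.Q79.HC.Hc α hα) (fun c hc => hc.1)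
    · filter_upwards [eventually_ge_atTop 2] with n hn
      have hnr : (2:ℝ) ≤ n := by exact_mod_cast hn
      apply Pool.Agent.Q79.HC.Hc_ball hα (x := 0)
      · have : 0 < (n:ℝ) - 1 := by linarith
        positivity
      · intro c hc
        rw [mem_closedBall_zero_iff]
        exact Pool.Agent.H712R2.norm_le_outer hn hc
  · exact bound_large (by linarith) hα hα2
  · obtain ⟨κ, hκ, h⟩ := CN_dim hα
    exact ⟨κ, fun n hn => (dimH_mono (sub_CN hn (by linarith))).trans (h n hn)⟩

end Pool.Agent.Results.MP_c35c17_an.HausdorffContents
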